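import Mathlib
import Pool.Agent.H355R3.UF.Final

set_option autoImplicit false

namespace Pool.Agent.Results.MP_c1d0cb_al.NilpotentByExponent

open H355R3 H355R3.UF

/-- Unique factorization for all formations `F = F₁ * ⋯ * F_m` (no closure under normal
subgroups) such that for some `e > 0` the subgroup generated by the `e`-th powers is nilpotent in
every group of `F`, for instance for all formations of bounded exponent: if
`F₁ * ⋯ * F_m = H₁ * ⋯ * H_n` with all the factors indecomposable, then the two words coincide. -/
theorem result (e : ℕ) (he : 0 < e) (l l' : List Formation)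
    (hl : ∀ A ∈ l, Indec A) (hl' : ∀ A ∈ l', Indec A)
    (hN : ∀ (X : Type) [Group X] [Finite X], l.prod.Mem X →
      Group.IsNilpotent (Subgroup.closure (Set.range fun x : X => x ^ e)))
    (h : l.prod = l'.prod) : l = l' :=
  unique_aux all he l l' hl hl' hN h

end Pool.Agent.Results.MP_c1d0cb_al.NilpotentByExponent
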