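import Mathlib
import Pool.Agent.Helper75.UF.Defs
import Pool.Agent.Helper75.UF.P_main
import Pool.Agent.H347.RC.Cancel

set_option autoImplicit false

namespace Pool.Agent.Results.MP_c1d0cb_al.RightCancellation

open Pool.Agent.Helper75.UF

/-- The right cancellation law for products of indecomposable formations, no closure under normal
subgroups being assumed; consequently two factorisations with the same right tail, whose remaining
factors are normally hereditary, coincide. -/
theorem result :
    (∀ (A B : GroupClass) (m : List GroupClass), IsFormation A → IsFormation B →
      (∀ F ∈ m, Indecomposable F) →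
      Product A (listProd m) = Product B (listProd m) → A = B) ∧
    (∀ (l l' m : List GroupClass), (∀ F ∈ l, Indecomposable F ∧ NormallyHereditary F) →
      (∀ F ∈ l', Indecomposable F ∧ NormallyHereditary F) →
      (∀ F ∈ m, Indecomposable F) →
      listProd (l ++ m) = listProd (l' ++ m) → l = l') := by
  have h1 : ∀ (A B : GroupClass) (m : List GroupClass), IsFormation A → IsFormation B →
      (∀ F ∈ m, Indecomposable F) →
      Product A (listProd m) = Product B (listProd m) → A = B :=
    fun A B m hA hB hm h => Pool.Agent.H347.RC.right_cancel_list m hm hA hB h
  refine ⟨h1, ?_⟩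
  intro l l' m hl hl' hm h
  rw [Pool.Agent.H347.RC.listProd_append_list l m (fun F hF => (hl F hF).1) hm,
    Pool.Agent.H347.RC.listProd_append_list l' m (fun F hF => (hl' F hF).1) hm] at h
  exact main l l' hl hl'
    (h1 _ _ m (Pool.Agent.H347.RC.listProd_formation l (fun F hF => (hl F hF).1))
      (Pool.Agent.H347.RC.listProd_formation l' (fun F hF => (hl' F hF).1)) hm h)

end Pool.Agent.Results.MP_c1d0cb_al.RightCancellation
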